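import Mathlib

set_option autoImplicit false

namespace Pool.Agent.Results.MP_55034c_pr.Q1
open Finset

variable {n : ℕ}

/-- probability of the trajectory `w 0, …, w t` of the chain `P` started from `π` -/
def pathProb (P : Fin n → Fin n → ℚ) (π : Fin n → ℚ) {t : ℕ} (w : Fin (t + 1) → Fin n) : ℚ :=
  π (w 0) * ∏ r : Fin t, P (w r.castSucc) (w r.succ)

/-- `P_π(|R(t)| ≥ y)` for a single chain -/
def single (P : Fin n → Fin n → ℚ) (π : Fin n → ℚ) (t y : ℕ) : ℚ :=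
  ∑ w : Fin (t + 1) → Fin n, if y ≤ (univ.image w).card then pathProb P π w else 0

/-- `P_{π^k}(|⋃_i R_i(t_i)| ≥ y)` for `k` independent chains -/
def multi (P : Fin n → Fin n → ℚ) (π : Fin n → ℚ) {k : ℕ} (t : Fin k → ℕ) (y : ℕ) : ℚ :=
  ∑ W : (i : Fin k) → Fin (t i + 1) → Fin n,
    if y ≤ (univ.biUnion (fun i => univ.image (W i))).card then ∏ i, pathProb P π (W i) else 0

def P0 (x y : Fin 4) : ℚ := if x = 0 then (if y = 0 then 285 / 288 else 1 / 288) else 1 / 4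
def pi0 (x : Fin 4) : ℚ := if x = 0 then 288 / 300 else 4 / 300

lemma sum3 {α : Type} [Fintype α] (f : (Fin 3 → α) → ℚ) :
    ∑ W : Fin 3 → α, f W = ∑ a : α, ∑ b : α, ∑ c : α, f ![a, b, c] := by
  rw [← (Fin.consEquiv (fun _ : Fin 3 => α)).sum_comp, Fintype.sum_prod_type]
  refine Finset.sum_congr rfl fun a _ => ?_
  rw [← (Fin.consEquiv (fun _ : Fin 2 => α)).sum_comp, Fintype.sum_prod_type]
  refine Finset.sum_congr rfl fun b _ => ?_
  rw [← (Fin.consEquiv (fun _ : Fin 1 => α)).sum_comp, Fintype.sum_prod_type]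
  refine Finset.sum_congr rfl fun c _ => ?_
  rw [Fintype.sum_unique]
  rfl

lemma sum2 {α : Type} [Fintype α] (f : (Fin 2 → α) → ℚ) :
    ∑ W : Fin 2 → α, f W = ∑ a : α, ∑ b : α, f ![a, b] := by
  rw [← (Fin.consEquiv (fun _ : Fin 2 => α)).sum_comp, Fintype.sum_prod_type]
  refine Finset.sum_congr rfl fun b _ => ?_
  rw [← (Fin.consEquiv (fun _ : Fin 1 => α)).sum_comp, Fintype.sum_prod_type]
  refine Finset.sum_congr rfl fun c _ => ?_
  rw [Fintype.sum_unique]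
  rfl

lemma sum4 {α : Type} [Fintype α] (f : (Fin 4 → α) → ℚ) :
    ∑ W : Fin 4 → α, f W = ∑ d : α, ∑ a : α, ∑ b : α, ∑ c : α, f ![d, a, b, c] := by
  rw [← (Fin.consEquiv (fun _ : Fin 4 => α)).sum_comp, Fintype.sum_prod_type]
  refine Finset.sum_congr rfl fun d _ => ?_
  rw [sum3]
  rfl

lemma key : multi P0 pi0 (fun _ : Fin 3 => 1) 4 < single P0 pi0 3 4 := by
  unfold multi single
  rw [sum4]
  rw [sum3 (α := Fin 2 → Fin 4)]
  simp only [sum2]
  decide +kernel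

theorem result : ∃ (n : ℕ) (P : Fin n → Fin n → ℚ) (π : Fin n → ℚ) (k : ℕ) (t : Fin k → ℕ)
    (y : ℕ), (∀ x z, 0 < P x z) ∧ (∀ x, ∑ z, P x z = 1) ∧ (∀ x, 0 < π x) ∧ ∑ x, π x = 1 ∧
    (∀ x z, π x * P x z = π z * P z x) ∧ 1 ≤ k ∧ (∀ i, 0 < t i) ∧ 0 < y ∧
    multi P π t y < single P π (∑ i, t i) y := by
  refine ⟨4, P0, pi0, 3, fun _ => 1, 4, by decide +kernel, by decide +kernel, by decide +kernel,
    by decide +kernel, by decide +kernel, by norm_num, fun _ => by norm_num, by norm_num, ?_⟩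
  have h : ∑ i : Fin 3, (fun _ : Fin 3 => 1) i = 3 := by decide
  rw [h]
  exact key

end Pool.Agent.Results.MP_55034c_pr.Q1
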